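import Pool.Agent.H12.UCR.Stmts

/-!
# Board `ucr`, row DNS: measures on periodic orbits are dense
-/

set_option autoImplicit false

open MeasureTheory Filter Topology

namespace Pool.UCR

theorem dns_thm (h1 : NBHS) (h2 : ORBS) (h3 : AVGS) (h4 : CVXS) : DNSS := by
  rintro p hp W hW ⟨μ₀, hμ₀⟩
  obtain ⟨m, η, hη, hn⟩ := h1 p μ₀ W hW hμ₀
  obtain ⟨L, hL⟩ := exists_nat_gt (14 * (m : ℝ) / η)
  have hL0 : (0 : ℝ) < ((L + 1 : ℕ) : ℝ) := by positivity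
  obtain ⟨w, hw0, hw1, hw2⟩ := h3 p (L + 1) hp (by omega) μ₀
  have hx : (∑ a ∈ Finset.range (p ^ (L + 1)), w a • S p (L + 1) a) ∈ {x : ℕ → ℂ | Apx p x} := by
    refine (h4 p hp).sum_mem (fun a _ => hw0 a) hw1 ?_
    intro a ha m' η' hη'
    refine ⟨L + 1, by omega, a, Finset.mem_range.1 ha, ?_⟩
    intro j _
    rw [sub_self, norm_zero]
    exact hη'
  obtain ⟨L', hL', a', -, hnear⟩ := hx m (η / 2) (by linarith)
  obtain ⟨μ, hμ⟩ := h2 p L' a' hp hL'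
  refine ⟨L', a', hL', μ, hn μ ?_, hμ⟩
  intro j hj
  have e1 := hnear j hj
  have e2 := hw2 j
  have e3 : (∑ a ∈ Finset.range (p ^ (L + 1)), w a • S p (L + 1) a) j =
      ∑ a ∈ Finset.range (p ^ (L + 1)), (w a : ℂ) * S p (L + 1) a j := by
    rw [Finset.sum_apply]
    refine Finset.sum_congr rfl fun a _ => ?_
    rw [Pi.smul_apply, Complex.real_smul]
  rw [e3] at e1
  generalize (∑ a ∈ Finset.range (p ^ (L + 1)), (w a : ℂ) * S p (L + 1) a j) = X at e1 e2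
  have e4 : 7 * (j : ℝ) / ((L + 1 : ℕ) : ℝ) < η / 2 := by
    rw [div_lt_iff₀ hL0]
    have e5 : (j : ℝ) ≤ m := by exact_mod_cast hj
    rw [div_lt_iff₀ hη] at hL
    push_cast
    nlinarith
  rw [hμ j]
  calc ‖S p L' a' j - fc μ₀ j‖ = ‖(S p L' a' j - X) + -(fc μ₀ j - X)‖ := by
        congr 1
        ring
    _ ≤ ‖S p L' a' j - X‖ + ‖-(fc μ₀ j - X)‖ := norm_add_le _ _
    _ = ‖S p L' a' j - X‖ + ‖fc μ₀ j - X‖ := by rw [norm_neg]
    _ < η := by linarith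

end Pool.UCR
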