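import Pool.Agent.H12.UCR.Stmts

/-!
# Board `ucr`, row WYC: the Weyl criterion
-/

set_option autoImplicit false

open MeasureTheory Filter Topology

namespace Pool.UCR

namespace WYC31

theorem integ (μ : Measure UnitAddCircle) [IsProbabilityMeasure μ] (g : C(UnitAddCircle, ℂ)) (m : ℕ) :
    Integrable (fun x => g (m • x)) μ := by
  have hc : Continuous fun x : UnitAddCircle => g (m • x) := by fun_prop
  exact hc.integrable_of_hasCompactSupport (HasCompactSupport.of_compactSpace _)

theorem bd (μ : Measure UnitAddCircle) [IsProbabilityMeasure μ] (g : C(UnitAddCircle, ℂ)) (m : ℕ) :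
    ‖∫ x, g (m • x) ∂μ‖ ≤ ‖g‖ := by
  have h := norm_integral_le_of_norm_le_const (μ := μ) (f := fun x => g (m • x)) (C := ‖g‖)
    (Eventually.of_forall fun x => g.norm_coe_le_norm _)
  simpa using h

/-- the averages -/
noncomputable def A (q : ℕ) (μ : Measure UnitAddCircle) (N : ℕ) (g : C(UnitAddCircle, ℂ)) : ℂ :=
  (N : ℂ)⁻¹ * ∑ n ∈ Finset.range N, ∫ x, g ((q ^ n) • x) ∂μ

theorem A_add (q : ℕ) (μ : Measure UnitAddCircle) [IsProbabilityMeasure μ] (N : ℕ)
    (g g' : C(UnitAddCircle, ℂ)) : A q μ N (g + g') = A q μ N g + A q μ N g' := by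
  rw [A, A, A, ← mul_add, ← Finset.sum_add_distrib]
  congr 1
  refine Finset.sum_congr rfl fun n _ => ?_
  rw [← integral_add (integ μ g _) (integ μ g' _)]
  rfl

theorem A_smul (q : ℕ) (μ : Measure UnitAddCircle) (N : ℕ) (c : ℂ)
    (g : C(UnitAddCircle, ℂ)) : A q μ N (c • g) = c * A q μ N g := by
  have h : ∑ n ∈ Finset.range N, ∫ x, (c • g) ((q ^ n) • x) ∂μ =
      c * ∑ n ∈ Finset.range N, ∫ x, g ((q ^ n) • x) ∂μ := by
    rw [Finset.mul_sum]
    refine Finset.sum_congr rfl fun n _ => ?_
    rw [← integral_const_mul]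
    rfl
  rw [A, A, h]
  ring

theorem A_bd (q : ℕ) (μ : Measure UnitAddCircle) [IsProbabilityMeasure μ] (N : ℕ)
    (g : C(UnitAddCircle, ℂ)) : ‖A q μ N g‖ ≤ ‖g‖ := by
  rcases Nat.eq_zero_or_pos N with rfl | hN
  · simp [A]
  · have hN' : (0 : ℝ) < N := by exact_mod_cast hN
    rw [A, norm_mul, norm_inv, Complex.norm_natCast]
    have h : ‖∑ n ∈ Finset.range N, ∫ x, g ((q ^ n) • x) ∂μ‖ ≤ N * ‖g‖ := by
      refine (norm_sum_le _ _).trans ?_
      refine (Finset.sum_le_sum fun n _ => bd μ g (q ^ n)).trans ?_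
      rw [Finset.sum_const, Finset.card_range, nsmul_eq_mul]
    calc (N : ℝ)⁻¹ * ‖∑ n ∈ Finset.range N, ∫ x, g ((q ^ n) • x) ∂μ‖ ≤ (N : ℝ)⁻¹ * (N * ‖g‖) :=
          mul_le_mul_of_nonneg_left h (by positivity)
      _ = ‖g‖ := by
          field_simp

theorem prob : IsProbabilityMeasure (volume : Measure UnitAddCircle) :=
  ⟨UnitAddCircle.measure_univ⟩

theorem four0 (k : ℤ) (hk : k ≠ 0) : ∫ x : UnitAddCircle, fourier k x ∂volume = 0 :=
  integral_eq_zero_of_add_right_eq_neg (fourier_add_half_inv_index hk one_pos)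

theorem main (q : ℕ) (μ : Measure UnitAddCircle) [IsProbabilityMeasure μ]
    (hk : ∀ k : ℤ, k ≠ 0 → Tendsto (fun N => A q μ N (fourier k)) atTop (𝓝 0))
    (g : C(UnitAddCircle, ℂ)) :
    Tendsto (fun N => A q μ N g) atTop (𝓝 (∫ x, g x ∂(volume : Measure UnitAddCircle))) := by
  have := prob
  have hsp : ∀ P ∈ Submodule.span ℂ (Set.range (@fourier 1)),
      Tendsto (fun N => A q μ N P) atTop (𝓝 (∫ x, P x ∂(volume : Measure UnitAddCircle))) := by
    intro P hP
    induction hP using Submodule.span_induction with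
    | mem P hP =>
      obtain ⟨k, rfl⟩ := hP
      by_cases h0 : k = 0
      · subst h0
        have h1 : ∀ᶠ N in atTop, A q μ N (fourier 0) =
            ∫ x, fourier 0 x ∂(volume : Measure UnitAddCircle) := by
          filter_upwards [eventually_ge_atTop 1] with N hN
          have hN' : (N : ℂ) ≠ 0 := by
            have : N ≠ 0 := by omega
            exact_mod_cast this
          simp [A, hN']
        exact Tendsto.congr' (h1.mono fun N h => h.symm) tendsto_const_nhds
      · rw [four0 k h0]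
        exact hk k h0
    | zero =>
      have h1 : ∀ N, A q μ N (0 : C(UnitAddCircle, ℂ)) = 0 := fun N => by simp [A]
      simp [h1]
    | add P P' _ _ h1 h2 =>
      have h3 := h1.add h2
      have h4 : ∫ x, (P + P') x ∂(volume : Measure UnitAddCircle) =
          ∫ x, P x ∂(volume : Measure UnitAddCircle) +
            ∫ x, P' x ∂(volume : Measure UnitAddCircle) := by
        have i1 := integ (volume : Measure UnitAddCircle) P 1
        have i2 := integ (volume : Measure UnitAddCircle) P' 1
        simp only [one_smul] at i1 i2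
        rw [← integral_add i1 i2]
        rfl
      rw [h4]
      refine h3.congr fun N => ?_
      rw [A_add]
    | smul c P _ h1 =>
      have h3 := h1.const_mul c
      have h4 : ∫ x, (c • P) x ∂(volume : Measure UnitAddCircle) =
          c * ∫ x, P x ∂(volume : Measure UnitAddCircle) := by
        rw [← integral_const_mul]
        rfl
      rw [h4]
      refine h3.congr fun N => ?_
      rw [A_smul]
  have hcl : g ∈ (Submodule.span ℂ (Set.range (@fourier 1))).topologicalClosure := by
    rw [span_fourier_closure_eq_top]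
    trivial
  have hcl' : g ∈ closure ((Submodule.span ℂ (Set.range (@fourier 1)) :
      Submodule ℂ C(UnitAddCircle, ℂ)) : Set C(UnitAddCircle, ℂ)) := hcl
  rw [Metric.tendsto_atTop]
  intro ε hε
  obtain ⟨P, hP, hgP⟩ := Metric.mem_closure_iff.1 hcl' (ε / 4) (by linarith)
  obtain ⟨N0, hN0⟩ := Metric.tendsto_atTop.1 (hsp P hP) (ε / 4) (by linarith)
  refine ⟨N0, fun N hN => ?_⟩
  have e1 := hN0 N hN
  rw [dist_eq_norm] at e1 hgP ⊢
  have e2 : A q μ N g = A q μ N (g - P) + A q μ N P := by
    rw [← A_add, sub_add_cancel]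
  have e3 := A_bd q μ N (g - P)
  have e4 : ∫ x, g x ∂(volume : Measure UnitAddCircle) =
      ∫ x, (g - P) x ∂(volume : Measure UnitAddCircle) +
        ∫ x, P x ∂(volume : Measure UnitAddCircle) := by
    have i1 := integ (volume : Measure UnitAddCircle) (g - P) 1
    have i2 := integ (volume : Measure UnitAddCircle) P 1
    simp only [one_smul] at i1 i2
    rw [← integral_add i1 i2]
    congr 1
    funext x
    simp
  have e5 := bd (volume : Measure UnitAddCircle) (g - P) 1
  simp only [one_smul] at e5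
  rw [e2, e4]
  generalize A q μ N (g - P) = a at e3
  generalize A q μ N P = b at e1
  generalize ∫ x, (g - P) x ∂(volume : Measure UnitAddCircle) = c at e5
  generalize ∫ x, P x ∂(volume : Measure UnitAddCircle) = d at e1
  calc ‖a + b - (c + d)‖ = ‖a + (b - d) + -c‖ := by
        congr 1
        ring
    _ ≤ ‖a + (b - d)‖ + ‖-c‖ := norm_add_le _ _
    _ ≤ (‖a‖ + ‖b - d‖) + ‖c‖ := by
        rw [norm_neg]
        exact add_le_add (norm_add_le _ _) le_rfl
    _ < ε := by linarith

end WYC31

open WYC31 in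
theorem wyc_thm : WYCS := by
  intro p q μ hμ f
  have : IsProbabilityMeasure ((μ.1 : ProbabilityMeasure UnitAddCircle) : Measure UnitAddCircle) :=
    inferInstance
  set ν : Measure UnitAddCircle := ((μ.1 : ProbabilityMeasure UnitAddCircle) : Measure UnitAddCircle)
    with hν
  have hfs : ∀ (k : ℕ) (m : ℕ) (x : UnitAddCircle), fourier (k : ℤ) (m • x) =
      fourier ((k * m : ℕ) : ℤ) x := by
    intro k m x
    rw [fourier_apply, fourier_apply, natCast_zsmul, natCast_zsmul, mul_smul]
  have hpos : ∀ k : ℕ, 1 ≤ k → Tendsto (fun N => A q ν N (fourier (k : ℤ))) atTop (𝓝 0) := by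
    intro k hk
    refine (hμ k hk).congr fun N => ?_
    rw [Av, A]
    congr 1
    refine Finset.sum_congr rfl fun n _ => ?_
    rw [fc]
    refine integral_congr_ae (Eventually.of_forall fun x => ?_)
    exact (hfs k (q ^ n) x).symm
  have hall : ∀ k : ℤ, k ≠ 0 → Tendsto (fun N => A q ν N (fourier k)) atTop (𝓝 0) := by
    intro k hk
    rcases lt_or_gt_of_ne hk with h | h
    · obtain ⟨m, hm⟩ : ∃ m : ℕ, k = -(m : ℤ) := ⟨(-k).toNat, by omega⟩
      have h1 := hpos m (by omega)
      have h2 := (Complex.continuous_conj.tendsto (0 : ℂ)).comp h1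
      rw [map_zero] at h2
      refine h2.congr fun N => ?_
      rw [Function.comp_apply, A, A, map_mul, map_inv₀, Complex.conj_natCast, map_sum]
      congr 1
      refine Finset.sum_congr rfl fun n _ => ?_
      rw [← integral_conj]
      refine integral_congr_ae (Eventually.of_forall fun x => ?_)
      rw [hm]
      exact fourier_neg.symm
    · obtain ⟨m, hm⟩ : ∃ m : ℕ, k = (m : ℤ) := ⟨k.toNat, by omega⟩
      rw [hm]
      exact hpos m (by omega)
  have hfin := main q ν hall ⟨fun x => (f x : ℂ), by fun_prop⟩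
  have hre := (Complex.continuous_re.tendsto _).comp hfin
  have e1 : (∫ x, (⟨fun x => (f x : ℂ), by fun_prop⟩ : C(UnitAddCircle, ℂ)) x
      ∂(volume : Measure UnitAddCircle)).re = ∫ x, f x ∂(volume : Measure UnitAddCircle) := by
    have : ∫ x, (⟨fun x => (f x : ℂ), by fun_prop⟩ : C(UnitAddCircle, ℂ)) x
      ∂(volume : Measure UnitAddCircle) = ((∫ x, f x ∂(volume : Measure UnitAddCircle) : ℝ) : ℂ) :=
      integral_ofReal
    rw [this, Complex.ofReal_re]
  rw [e1] at hre
  refine hre.congr fun N => ?_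
  have e2 : A q ν N ⟨fun x => (f x : ℂ), by fun_prop⟩ =
      (((N : ℝ)⁻¹ * ∑ n ∈ Finset.range N, ∫ x, f ((q ^ n) • x) ∂ν : ℝ) : ℂ) := by
    rw [A]
    push_cast
    congr 1
    refine Finset.sum_congr rfl fun n _ => ?_
    exact integral_ofReal
  rw [Function.comp_apply, e2, Complex.ofReal_re]

end Pool.UCR
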